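import Mathlib

set_option autoImplicit false

namespace Pool.Agent.Results.MP_8c8deb_an.Cex

/-- The products `P n = A n B n ⋯ A 1 B 1` (sequences indexed from `0`; `P 0 = 1`). -/
def P {d : ℕ} (A B : ℕ → Matrix (Fin d) (Fin d) ℝ) : ℕ → Matrix (Fin d) (Fin d) ℝ
  | 0 => 1
  | (n + 1) => A n * B n * P A B n

/-- All products have all entries bounded by `C` in absolute value. -/
def Bdd {d : ℕ} (A B : ℕ → Matrix (Fin d) (Fin d) ℝ) (C : ℝ) : Prop :=
  ∀ n, 1 ≤ n → ∀ i j, |P A B n i j| ≤ C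

def A0 : Matrix (Fin 3) (Fin 3) ℝ := !![1, 0, 0; 0, 2, 0; 0, 0, 0]
def A1 : Matrix (Fin 3) (Fin 3) ℝ := !![0, 0, 0; 0, 0, 0; 2, 0, 0]
def B1 : Matrix (Fin 3) (Fin 3) ℝ := !![1, 1, 1; 0, 0, 0; 0, 0, 0]
def B2 : Matrix (Fin 3) (Fin 3) ℝ := !![1, 0, 0; 0, 1, 1; 0, 0, 0]

lemma e (M N : Matrix (Fin 3) (Fin 3) ℝ) (i j : Fin 3) :
    (M * N) i j = M i 0 * N 0 j + M i 1 * N 1 j + M i 2 * N 2 j := by
  rw [Matrix.mul_apply, Fin.sum_univ_three]

lemma bdd_of (A B : ℕ → Matrix (Fin 3) (Fin 3) ℝ) (N : ℕ) (h : ∀ n, N ≤ n → P A B n = P A B N) :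
    ∃ C, Bdd A B C := by
  refine ⟨∑ m ∈ Finset.range (N + 1), ∑ i, ∑ j, |P A B m i j|, fun n _ i j => ?_⟩
  have key : ∀ m ≤ N, |P A B m i j| ≤ ∑ m ∈ Finset.range (N + 1), ∑ i, ∑ j, |P A B m i j| := by
    intro m hm
    calc |P A B m i j| ≤ ∑ j, |P A B m i j| :=
          Finset.single_le_sum (f := fun j => |P A B m i j|) (fun _ _ => abs_nonneg _) (by simp)
      _ ≤ ∑ i, ∑ j, |P A B m i j| :=
          Finset.single_le_sum (f := fun i => ∑ j, |P A B m i j|) (fun _ _ => by positivity) (by simp)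
      _ ≤ _ := Finset.single_le_sum (f := fun m => ∑ i, ∑ j, |P A B m i j|)
          (fun _ _ => by positivity) (by simp; omega)
  rcases le_total n N with hn | hn
  · exact key n hn
  · rw [h n hn]; exact key N le_rfl

lemma H (A : ℕ → Matrix (Fin 3) (Fin 3) ℝ) (hA : ∀ n, A n = A0 ∨ A n = A1) :
    ∃ B : ℕ → Matrix (Fin 3) (Fin 3) ℝ, (∀ n, B n = B1 ∨ B n = B2) ∧ ∃ C, Bdd A B C := by
  by_cases h : ∃ N, ∀ n, N ≤ n → A n = A0
  · obtain ⟨N, hN⟩ := h
    refine ⟨fun _ => B1, fun _ => Or.inl rfl, bdd_of _ _ (N + 1) fun n hn => ?_⟩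
    induction n, hn using Nat.le_induction with
    | base => rfl
    | succ n hn ih =>
      rw [P, ih, hN n (by omega), P, hN N le_rfl, ← Matrix.mul_assoc]
      congr 1
      ext i j; fin_cases i <;> fin_cases j <;> simp [A0, B1]
  · push Not at h
    obtain ⟨a, -, ha⟩ := h 0
    obtain ⟨b, hb, hb'⟩ := h (a + 1)
    have ha := (hA a).resolve_left ha
    have hb' := (hA b).resolve_left hb'
    have k : ∀ n, a + 1 ≤ n → ∀ j, P A (fun _ => B2) n 0 j = 0 := by
      intro n hn j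
      induction n, hn using Nat.le_induction with
      | base => rw [P, ha, e]; simp [A1, B2]
      | succ n hn ih => rw [P, e, ih]; rcases hA n with h | h <;> simp [h, A0, A1, B2]
    have z : ∀ n, b + 1 ≤ n → P A (fun _ => B2) n = 0 := by
      intro n hn
      induction n, hn using Nat.le_induction with
      | base =>
        ext i j
        rw [P, hb', e, k b hb]; fin_cases i <;> simp [A1, B2]
      | succ n hn ih => rw [P, ih, Matrix.mul_zero]
    exact ⟨fun _ => B2, fun _ => Or.inr rfl, bdd_of _ _ (b + 1) fun n hn => by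
      rw [z n hn, z _ le_rfl]⟩

theorem result : ∃ (d : ℕ) (𝒜 ℬ : Finset (Matrix (Fin d) (Fin d) ℝ)), 1 ≤ d ∧ 𝒜.Nonempty ∧
    ℬ.Nonempty ∧
    (∀ A : ℕ → Matrix (Fin d) (Fin d) ℝ, (∀ n, A n ∈ 𝒜) →
      ∃ B : ℕ → Matrix (Fin d) (Fin d) ℝ, (∀ n, B n ∈ ℬ) ∧ ∃ C, Bdd A B C) ∧
    ∀ C : ℝ, ∃ A : ℕ → Matrix (Fin d) (Fin d) ℝ, (∀ n, A n ∈ 𝒜) ∧
      ∀ B : ℕ → Matrix (Fin d) (Fin d) ℝ, (∀ n, B n ∈ ℬ) → ¬Bdd A B C := by
  classical
  refine ⟨3, {A0, A1}, {B1, B2}, by norm_num, by simp, by simp, ?_, fun C => ?_⟩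
  · simpa using H
  obtain ⟨m, hm, hm1⟩ : ∃ m : ℕ, 2 * C < 2 ^ m ∧ 1 ≤ m := by
    obtain ⟨m, hm⟩ := pow_unbounded_of_one_lt (2 * C) (one_lt_two (α := ℝ))
    exact ⟨m + 1, hm.trans (pow_lt_pow_right₀ one_lt_two (by omega)), by omega⟩
  obtain ⟨A, hAdef⟩ : ∃ A : ℕ → Matrix (Fin 3) (Fin 3) ℝ,
      ∀ n, A n = if n % (m + 1) = m then A1 else A0 := ⟨_, fun _ => rfl⟩
  refine ⟨A, fun n => by rw [hAdef]; split_ifs <;> simp, fun B hB hb => ?_⟩
  have hB : ∀ n, B n = B1 ∨ B n = B2 := by simpa using hB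
  have pos : ∀ n i, 0 ≤ P A B n i 0 := by
    intro n
    induction n with
    | zero => intro i; rw [P, Matrix.one_apply]; split_ifs <;> norm_num
    | succ n ih =>
      intro i
      have := ih 0; have := ih 1; have := ih 2
      rw [P, e, hAdef]
      split_ifs <;> rcases hB n with h | h <;> fin_cases i <;> simp [h, A0, A1, B1, B2] <;> linarith
  have blk : ∀ q (c : ℝ), 1 ≤ c → (c ≤ P A B (q * (m + 1)) 0 0 ∨ c ≤ P A B (q * (m + 1)) 2 0) →
      2 * c ≤ P A B ((q + 1) * (m + 1)) 2 0 := by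
    intro q c hc h0
    have inner : ∀ t, t ≤ m → c ≤ P A B (q * (m + 1) + t) 0 0 ∨
        2 ^ t * c ≤ P A B (q * (m + 1) + t) 1 0 + P A B (q * (m + 1) + t) 2 0 := by
      intro t ht
      induction t with
      | zero =>
        have := pos (q * (m + 1)) 1
        rcases h0 with h | h
        · exact Or.inl h
        · right; simp only [add_zero, pow_zero]; linarith
      | succ t ih =>
        have a0 : A (q * (m + 1) + t) = A0 := by
          rw [hAdef, if_neg]
          rw [Nat.mul_add_mod', Nat.mod_eq_of_lt (by omega)]; omega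
        have p0 := pos (q * (m + 1) + t) 0
        have p1 := pos (q * (m + 1) + t) 1
        have p2 := pos (q * (m + 1) + t) 2
        have : c ≤ 2 ^ t * c := le_mul_of_one_le_left (by linarith) (one_le_pow₀ one_le_two)
        rw [← add_assoc, P, a0, e, e, e]
        rcases hB (q * (m + 1) + t) with h | h <;> rcases ih (by omega) with g | g <;>
          simp [h, A0, B1, B2, pow_succ]
        · left; linarith
        · left; linarith
        · left; linarith
        · right; simp [Matrix.vecMul, dotProduct, Fin.sum_univ_three]; linarith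
    have a1 : A (q * (m + 1) + m) = A1 := by
      rw [hAdef, if_pos]
      rw [Nat.mul_add_mod', Nat.mod_eq_of_lt (by omega)]
    have p1 := pos (q * (m + 1) + m) 1
    have p2 := pos (q * (m + 1) + m) 2
    have b1 := (le_abs_self _).trans (hb (q * (m + 1) + m) (by omega) 1 0)
    have b2 := (le_abs_self _).trans (hb (q * (m + 1) + m) (by omega) 2 0)
    have : (2 : ℝ) ^ m ≤ 2 ^ m * c := le_mul_of_one_le_right (by positivity) hc
    have g := (inner m le_rfl).resolve_right (by linarith)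
    rw [show (q + 1) * (m + 1) = q * (m + 1) + m + 1 by ring, P, a1, e]
    rcases hB (q * (m + 1) + m) with h | h <;> simp [h, A1, B1, B2] <;> linarith
  have fin : ∀ q, (2 : ℝ) ^ (q + 1) ≤ P A B ((q + 1) * (m + 1)) 2 0 := by
    intro q
    induction q with
    | zero => simpa using blk 0 1 le_rfl (Or.inl (by simp [P]))
    | succ q ih =>
      rw [pow_succ, mul_comm]
      exact blk _ _ (one_le_pow₀ one_le_two) (Or.inr ih)
  have b := (fin m).trans ((le_abs_self _).trans (hb _ (by nlinarith) 2 0))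
  rw [pow_succ] at b
  have : (0 : ℝ) < 2 ^ m := by positivity
  linarith

end Pool.Agent.Results.MP_8c8deb_an.Cex
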